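import Mathlib

set_option autoImplicit false

namespace Pool.Agent.Results.MP_a37635_nt.NoSum

open Polynomial

lemma step {F : Type*} [Field F] {x : F}
    (h : (Set.range fun n : ℕ => (fun z : F => z ^ 2 + z)^[n] x).Finite) :
    ∃ m n : ℕ, m < n ∧ (fun z : F => z ^ 2 + z)^[m] x = (fun z : F => z ^ 2 + z)^[n] x := by
  obtain ⟨m, -, n, -, hne, he⟩ := Set.infinite_univ.exists_ne_map_eq_of_mapsTo
    (f := fun n : ℕ => (fun z : F => z ^ 2 + z)^[n] x) (fun n _ => Set.mem_range_self n) h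
  rcases lt_or_gt_of_ne hne with h1 | h1
  · exact ⟨m, n, h1, he⟩
  · exact ⟨n, m, h1, he.symm⟩

lemma poly (k : ℕ) : ∃ P : ℤ[X], P.Monic ∧ P.natDegree = 2 ^ k ∧
    ∀ {F : Type} [Field F] (z : F), aeval z P = (fun z : F => z ^ 2 + z)^[k] z := by
  induction k with
  | zero => exact ⟨X, monic_X, by simp, by simp⟩
  | succ k ih =>
    obtain ⟨P, h1, h2, h3⟩ := ih
    have hd : (P ^ 2).natDegree = 2 ^ (k + 1) := by rw [h1.natDegree_pow, h2]; ring
    have hlt' : P.natDegree < (P ^ 2).natDegree := by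
      rw [hd, h2]
      exact Nat.pow_lt_pow_right (by norm_num) (by omega)
    refine ⟨P ^ 2 + P, (h1.pow 2).add_of_left (degree_lt_degree hlt'), ?_, fun z => ?_⟩
    · rw [natDegree_add_eq_left_of_natDegree_lt hlt', hd]
    · rw [Function.iterate_succ_apply', ← h3]
      simp

lemma integral {F : Type} [Field F] {x : F}
    (h : (Set.range fun n : ℕ => (fun z : F => z ^ 2 + z)^[n] x).Finite) : IsIntegral ℤ x := by
  obtain ⟨m, n, hmn, he⟩ := step h
  obtain ⟨P, p1, p2, p3⟩ := poly m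
  obtain ⟨Q, q1, q2, q3⟩ := poly n
  have hlt : P.natDegree < Q.natDegree := by
    rw [p2, q2]
    exact Nat.pow_lt_pow_right (by norm_num) hmn
  refine ⟨Q - P, q1.sub_of_left (degree_lt_degree hlt), ?_⟩
  rw [← aeval_def, map_sub, p3, q3, he, sub_self]

lemma map_fin {F G : Type*} [Field F] [Field G] (σ : F →+* G) (x : F) :
    (Set.range fun n : ℕ => (fun z : G => z ^ 2 + z)^[n] (σ x)) =
      σ '' (Set.range fun n : ℕ => (fun z : F => z ^ 2 + z)^[n] x) := by
  have h : ∀ n : ℕ, (fun z : G => z ^ 2 + z)^[n] (σ x) = σ ((fun z : F => z ^ 2 + z)^[n] x) := by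
    intro n
    induction n with
    | zero => rfl
    | succ n ih => rw [Function.iterate_succ_apply', Function.iterate_succ_apply', ih]; simp
  simp only [h, ← Set.range_comp]
  rfl

lemma nsq (z : ℂ) : Complex.normSq (z ^ 2 + z + 1 / 2) =
    (Complex.normSq (z + 1 / 2) - 1 / 4) ^ 2 + (z.re + 1 / 2) ^ 2 := by
  have h : (1 / 2 : ℂ) = ((1 / 2 : ℝ) : ℂ) := by push_cast; rfl
  rw [h]
  simp only [Complex.normSq_apply, pow_two, Complex.add_re, Complex.add_im, Complex.mul_re,
    Complex.mul_im, Complex.ofReal_re, Complex.ofReal_im]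
  ring

lemma nsq2 (z : ℂ) : Complex.normSq (z + 1 / 2) ^ 2 =
    Complex.normSq (z ^ 2 + z + 1 / 2) - ((z ^ 2 + z).re + 1 / 2) / 2 + 1 / 16 := by
  have h : (1 / 2 : ℂ) = ((1 / 2 : ℝ) : ℂ) := by push_cast; rfl
  rw [h]
  simp only [Complex.normSq_apply, pow_two, Complex.add_re, Complex.add_im, Complex.mul_re,
    Complex.mul_im, Complex.ofReal_re, Complex.ofReal_im]
  ring

lemma bound {z : ℂ} (h : (Set.range fun n : ℕ => (fun z : ℂ => z ^ 2 + z)^[n] z).Finite) :
    Complex.normSq (z ^ 2 + z + 1 / 2) ≤ 5 / 4 := by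
  set O := Set.range fun n : ℕ => (fun z : ℂ => z ^ 2 + z)^[n] z
  have hO : ∀ w ∈ O, w ^ 2 + w ∈ O := by
    rintro _ ⟨n, rfl⟩
    exact ⟨n + 1, by simp only [Function.iterate_succ_apply']⟩
  obtain ⟨w, hw, hmax⟩ := Set.exists_max_image O (fun w => Complex.normSq (w + 1 / 2)) h
    ⟨z, 0, rfl⟩
  have h1 := hmax _ (hO _ (hO _ hw))
  have h2 := nsq (w ^ 2 + w)
  have h3 := nsq2 w
  have h4 := hmax _ (hO z ⟨0, rfl⟩)
  refine h4.trans ?_
  by_contra hT
  push Not at hT
  set T := Complex.normSq (w + 1 / 2)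
  set s := Complex.normSq (w ^ 2 + w + 1 / 2)
  set x := (w ^ 2 + w).re + 1 / 2
  rw [h2] at h1
  have e1 : T ^ 2 - 5 / 16 = (s - 1 / 4) - x / 2 := by linarith
  have e2 : (T ^ 2 - 5 / 16) ^ 2 ≤ 5 / 4 * T := by
    rw [e1]
    nlinarith [sq_nonneg ((s - 1 / 4) / 2 + x)]
  have e3 : T < T ^ 2 - 5 / 16 := by nlinarith
  nlinarith

lemma re_le {z : ℂ} (h : (Set.range fun n : ℕ => (fun z : ℂ => z ^ 2 + z)^[n] z).Finite) :
    z.re < 1 / 2 := by
  have h1 := bound h
  rw [nsq] at h1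
  by_contra hc
  push Not at hc
  have h2 : (z.re + 1 / 2) ^ 2 ≤ Complex.normSq (z + 1 / 2) := by
    have h : (1 / 2 : ℂ) = ((1 / 2 : ℝ) : ℂ) := by push_cast; rfl
    rw [h]
    simp only [Complex.normSq_apply, Complex.add_re, Complex.add_im, Complex.ofReal_re,
      Complex.ofReal_im]
    nlinarith [sq_nonneg z.im]
  have h3 : 1 ≤ (z.re + 1 / 2) ^ 2 := by nlinarith
  nlinarith

lemma norm_lt {z : ℂ} (h : (Set.range fun n : ℕ => (fun z : ℂ => z ^ 2 + z)^[n] z).Finite)
    (hz : 0 < z.re) : ‖z‖ < 1 := by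
  have h1 := bound h
  rw [nsq] at h1
  have h2 : Complex.normSq (z + 1 / 2) = Complex.normSq z + z.re + 1 / 4 := by
    have h : (1 / 2 : ℂ) = ((1 / 2 : ℝ) : ℂ) := by push_cast; rfl
    rw [h]
    simp only [Complex.normSq_apply, Complex.add_re, Complex.add_im, Complex.ofReal_re,
      Complex.ofReal_im]
    ring
  rw [h2, Complex.normSq_eq_norm_sq] at h1
  by_contra hc
  push Not at hc
  have h3 : 1 ≤ ‖z‖ ^ 2 := by nlinarith
  nlinarith

/-- No three preperiodic points of `z² + z` in `ℚbar` sum to `1`. -/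
theorem result (a b c : AlgebraicClosure ℚ)
    (ha : (Set.range fun n : ℕ => (fun z => z ^ 2 + z)^[n] a).Finite)
    (hb : (Set.range fun n : ℕ => (fun z => z ^ 2 + z)^[n] b).Finite)
    (hc : (Set.range fun n : ℕ => (fun z => z ^ 2 + z)^[n] c).Finite) :
    a + b + c ≠ 1 := by
  intro hs
  let K := IntermediateField.adjoin ℚ ({a, b, c} : Set (AlgebraicClosure ℚ))
  have hfd : FiniteDimensional ℚ K := by
    apply IntermediateField.finiteDimensional_adjoin
    intro x hx
    simp only [Set.mem_insert_iff, Set.mem_singleton_iff] at hx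
    rcases hx with rfl | rfl | rfl
    · exact (integral ha).tower_top
    · exact (integral hb).tower_top
    · exact (integral hc).tower_top
  have : NumberField K := NumberField.mk
  let a' : K := ⟨a, IntermediateField.subset_adjoin _ _ (by simp)⟩
  let b' : K := ⟨b, IntermediateField.subset_adjoin _ _ (by simp)⟩
  let c' : K := ⟨c, IntermediateField.subset_adjoin _ _ (by simp)⟩
  have hs' : a' + b' + c' = 1 := Subtype.ext hs
  have down : ∀ x : K, (Set.range fun n : ℕ =>
      (fun z : AlgebraicClosure ℚ => z ^ 2 + z)^[n] (x : AlgebraicClosure ℚ)).Finite →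
      (Set.range fun n : ℕ => (fun z : K => z ^ 2 + z)^[n] x).Finite := by
    intro x hx
    have h := map_fin (algebraMap K (AlgebraicClosure ℚ)) x
    refine Set.Finite.of_finite_image (f := algebraMap K (AlgebraicClosure ℚ)) ?_
      (algebraMap K (AlgebraicClosure ℚ)).injective.injOn
    rw [← h]
    exact hx
  have up : ∀ (σ : K →+* ℂ) (x : K), (Set.range fun n : ℕ => (fun z : K => z ^ 2 + z)^[n] x).Finite →
      (Set.range fun n : ℕ => (fun z : ℂ => z ^ 2 + z)^[n] (σ x)).Finite := by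
    intro σ x hx
    rw [map_fin]
    exact hx.image _
  have hre : ∀ σ : K →+* ℂ, 0 < (σ a').re := by
    intro σ
    have h1 := re_le (up σ b' (down b' hb))
    have h2 := re_le (up σ c' (down c' hc))
    have h3 := congrArg (fun x => (σ x).re) hs'
    simp only [map_add, map_one, Complex.add_re, Complex.one_re] at h3
    linarith
  have hlt : ∀ σ : K →+* ℂ, ‖σ a'‖ < 1 := fun σ => norm_lt (up σ a' (down a' ha)) (hre σ)
  obtain ⟨σ⟩ : Nonempty (K →+* ℂ) := inferInstance
  have h0 : a' ≠ 0 := by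
    intro h
    have := hre σ
    simp [h] at this
  obtain ⟨n, hn, h1⟩ := NumberField.Embeddings.pow_eq_one_of_norm_le_one K ℂ h0
    (integral (down a' ha)) (fun φ => (hlt φ).le)
  have h2 : ‖σ a'‖ ^ n = 1 := by rw [← norm_pow, ← map_pow, h1, map_one, norm_one]
  have h3 : ‖σ a'‖ ^ n < 1 := pow_lt_one₀ (norm_nonneg _) (hlt σ) hn.ne'
  linarith

end Pool.Agent.Results.MP_a37635_nt.NoSum
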